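import Mathlib

set_option autoImplicit false

namespace Pool.Agent.H222Z.PosAssoc

open Finset

/-- Edges of the small graph: `none` is the glued vertex. -/
def adjH : Option (Fin 7) → Option (Fin 7) → Bool := fun a b =>
  (a, b) ∈ [(none, some 4), (none, some 5), (some 0, some 4), (some 2, some 4), (some 0, some 5),
    (some 3, some 5), (some 1, some 6), (some 2, some 6), (some 3, some 6),
    (some 4, none), (some 5, none), (some 4, some 0), (some 4, some 2), (some 5, some 0),
    (some 5, some 3), (some 6, some 1), (some 6, some 2), (some 6, some 3)]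

lemma adjH_symm : ∀ a b, adjH a b = true → adjH b a = true := by decide
lemma adjH_irrefl : ∀ a, adjH a a = false := by decide

/-- The side of a vertex of the small graph. -/
def sideH : Option (Fin 7) → Bool
  | none => true
  | some t => decide (t.val < 4)

lemma adjH_side : ∀ a b, adjH a b = true → (sideH a = true ↔ ¬ sideH b = true) := by decide

/-- The `i`-th copy. -/
def emb {k : ℕ} (i : Fin k) (a : Option (Fin 7)) : Option (Fin k × Fin 7) := a.map fun t => (i, t)

lemma emb_inj {k : ℕ} (i : Fin k) {a b : Option (Fin 7)} (h : emb i a = emb i b) : a = b := by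
  cases a <;> cases b <;> simp_all [emb]

/-- `k` copies of the small graph glued along one vertex. -/
def G (k : ℕ) : SimpleGraph (Option (Fin k × Fin 7)) where
  Adj x y := ∃ i a b, adjH a b = true ∧ x = emb i a ∧ y = emb i b
  symm := ⟨by
    rintro x y ⟨i, a, b, h, rfl, rfl⟩
    exact ⟨i, b, a, adjH_symm a b h, rfl, rfl⟩⟩
  loopless := ⟨by
    rintro x ⟨i, a, b, h, h1, h2⟩
    have := emb_inj i (h1.symm.trans h2)
    subst this
    rw [adjH_irrefl] at h
    exact absurd h (by simp)⟩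

/-- One side of the bipartition. -/
def A (k : ℕ) : Finset (Option (Fin k × Fin 7)) :=
  univ.filter fun x => sideH (x.map Prod.snd) = true

lemma emb_mem_A {k : ℕ} (i : Fin k) (a : Option (Fin 7)) : emb i a ∈ A k ↔ sideH a = true := by
  cases a <;> simp [A, emb]

/-- Proper colourings of the small graph. -/
def P (c : Fin 3) (g : Fin 7 → Fin 3) : Prop :=
  c ≠ g 4 ∧ c ≠ g 5 ∧ g 0 ≠ g 4 ∧ g 2 ≠ g 4 ∧ g 0 ≠ g 5 ∧ g 3 ≠ g 5 ∧ g 1 ≠ g 6 ∧ g 2 ≠ g 6 ∧
    g 3 ≠ g 6

instance (c : Fin 3) (g : Fin 7 → Fin 3) : Decidable (P c g) := by unfold P; infer_instance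

lemma proper_iff {k : ℕ} (f : Option (Fin k × Fin 7) → Fin 3) :
    (∀ v w, (G k).Adj v w → f v ≠ f w) ↔ ∀ i, P (f none) fun t => f (some (i, t)) := by
  constructor
  · intro h i
    have h' : ∀ a b, adjH a b = true → f (emb i a) ≠ f (emb i b) :=
      fun a b hab => h _ _ ⟨i, a, b, hab, rfl, rfl⟩
    exact ⟨h' none (some 4) (by decide), h' none (some 5) (by decide),
      h' (some 0) (some 4) (by decide), h' (some 2) (some 4) (by decide),
      h' (some 0) (some 5) (by decide), h' (some 3) (some 5) (by decide),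
      h' (some 1) (some 6) (by decide), h' (some 2) (some 6) (by decide),
      h' (some 3) (some 6) (by decide)⟩
  · rintro h v w ⟨i, a, b, hab, rfl, rfl⟩
    obtain ⟨h1, h2, h3, h4, h5, h6, h7, h8, h9⟩ := h i
    simp only [adjH, List.mem_cons, Prod.mk.injEq, List.not_mem_nil, or_false,
      decide_eq_true_eq] at hab
    rcases hab with h | h | h | h | h | h | h | h | h | h | h | h | h | h | h | h | h | h <;>
      obtain ⟨rfl, rfl⟩ := h <;>
      first
        | assumption
        | exact fun e => absurd e.symm (by assumption)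

lemma count {k : ℕ} (Q : Fin 3 → (Fin 7 → Fin 3) → Prop) [∀ c g, Decidable (Q c g)] :
    ∑ f : Option (Fin k × Fin 7) → Fin 3,
      (if ∀ i, Q (f none) fun t => f (some (i, t)) then (1 : ℕ) else 0) =
      ∑ c, (∑ g, if Q c g then (1 : ℕ) else 0) ^ k := by
  let e : (Option (Fin k × Fin 7) → Fin 3) ≃ Fin 3 × (Fin k → Fin 7 → Fin 3) :=
    Equiv.piOptionEquivProd.trans (Equiv.prodCongr (Equiv.refl _) (Equiv.curry _ _ _))
  rw [← e.symm.sum_comp, Fintype.sum_prod_type]
  refine Finset.sum_congr rfl fun c _ => ?_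
  have : (∑ g, if Q c g then (1 : ℕ) else 0) ^ k =
      ∏ _i : Fin k, ∑ g, if Q c g then (1 : ℕ) else 0 := by simp
  rw [this, Finset.prod_univ_sum, Fintype.piFinset_univ]
  refine Finset.sum_congr rfl fun h _ => ?_
  rw [Fintype.prod_boole]
  congr 1

lemma sum7 (F : (Fin 7 → Fin 3) → ℕ) :
    ∑ g, F g = ∑ a0, ∑ a1, ∑ a2, ∑ a3, ∑ a4, ∑ a5, ∑ a6, F ![a0, a1, a2, a3, a4, a5, a6] := by
  have step : ∀ (n : ℕ) (F : (Fin (n + 1) → Fin 3) → ℕ),
      ∑ g, F g = ∑ a, ∑ g : Fin n → Fin 3, F (Matrix.vecCons a g) := by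
    intro n F
    rw [← (Fin.consEquiv fun _ => Fin 3).sum_comp, Fintype.sum_prod_type]
    rfl
  simp only [step]
  simp only [Fintype.sum_unique]
  rfl

lemma c_all : ∀ c : Fin 3, (∑ g, if P c g then (1 : ℕ) else 0) = 68 := by
  simp only [sum7]; decide +kernel

lemma c_u : (∑ g, if P 0 g ∧ g 0 = 0 then (1 : ℕ) else 0) = 44 := by
  simp only [sum7]; decide +kernel

lemma c_w : (∑ g, if P 0 g ∧ g 1 = 0 then (1 : ℕ) else 0) = 28 := by
  simp only [sum7]; decide +kernel

lemma c_uw : ∀ c : Fin 3, (∑ g, if P c g ∧ g 0 = 0 ∧ g 1 = 0 then (1 : ℕ) else 0) ≤ 18 := by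
  simp only [sum7]; decide +kernel

/-- Indicator of the event that the vertex `t` of every copy lies in the set. -/
noncomputable def ind {k : ℕ} (t : Fin 7) (S : Finset (Option (Fin k × Fin 7))) : ℝ :=
  if ∀ i, some (i, t) ∈ S then 1 else 0

lemma ind_mono {k : ℕ} (t : Fin 7) : Monotone (ind (k := k) t) := by
  intro S T hST
  unfold ind
  split_ifs with h1 h2
  · exact le_rfl
  · exact absurd (fun i => hST (h1 i)) h2
  · exact zero_le_one
  · exact le_rfl

lemma ind_eq {k : ℕ} (t : Fin 7) (ht : t.val < 4) (f : Option (Fin k × Fin 7) → Fin 3) :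
    ind t ((A k).filter fun v => f v = 0) = if ∀ i, f (some (i, t)) = 0 then 1 else 0 := by
  unfold ind
  congr 1
  simp [A, sideH, ht]

theorem main :
    ¬ (∀ (V : Type) [Fintype V] [DecidableEq V] (G : SimpleGraph V) [DecidableRel G.Adj]
    (A : Finset V),
    (∀ v w : V, G.Adj v w → (v ∈ A ↔ w ∉ A)) →
    ∀ (q : ℕ), 3 ≤ q → ∀ (c : Fin q) (X Y : Finset V → ℝ), Monotone X → Monotone Y →
    (((Finset.univ : Finset (V → Fin q)).filter
          (fun f => ∀ v w : V, G.Adj v w → f v ≠ f w)).card : ℝ) *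
      (∑ f ∈ (Finset.univ : Finset (V → Fin q)).filter
          (fun f => ∀ v w : V, G.Adj v w → f v ≠ f w),
        X (A.filter (fun v => f v = c)) * Y (A.filter (fun v => f v = c)))
    ≥ (∑ f ∈ (Finset.univ : Finset (V → Fin q)).filter
          (fun f => ∀ v w : V, G.Adj v w → f v ≠ f w),
        X (A.filter (fun v => f v = c))) *
      (∑ f ∈ (Finset.univ : Finset (V → Fin q)).filter
          (fun f => ∀ v w : V, G.Adj v w → f v ≠ f w),
        Y (A.filter (fun v => f v = c)))) := by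
  intro h
  obtain ⟨k, hk⟩ : ∃ k : ℕ, (3 * 68 ^ k) * (3 * 18 ^ k) < 44 ^ k * 28 ^ k :=
    ⟨400, by decide +kernel⟩
  have key := @h (Option (Fin k × Fin 7)) _ _ (G k) (Classical.decRel _) (A k) (by
    rintro v w ⟨i, a, b, hab, rfl, rfl⟩
    rw [emb_mem_A, emb_mem_A]
    exact adjH_side a b hab) 3 le_rfl 0 (ind 0) (ind 1) (ind_mono 0) (ind_mono 1)
  rw [Finset.card_filter, Finset.sum_filter, Finset.sum_filter, Finset.sum_filter] at key
  simp only [proper_iff, ind_eq 0 (by decide), ind_eq 1 (by decide)] at key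
  have e0 := count (k := k) P
  have e1 := count (k := k) fun c g => P c g ∧ g 0 = 0
  have e2 := count (k := k) fun c g => P c g ∧ g 1 = 0
  have e3 := count (k := k) fun c g => P c g ∧ g 0 = 0 ∧ g 1 = 0
  simp only [c_all] at e0
  have f0 : ∑ _c : Fin 3, 68 ^ k = 3 * 68 ^ k := by simp
  have f1 : 44 ^ k ≤ ∑ c : Fin 3, (∑ g, if P c g ∧ g 0 = 0 then (1 : ℕ) else 0) ^ k := by
    rw [← c_u]
    exact Finset.single_le_sum (f := fun c : Fin 3 =>
      (∑ g, if P c g ∧ g 0 = 0 then (1 : ℕ) else 0) ^ k) (fun _ _ => Nat.zero_le _)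
      (Finset.mem_univ 0)
  have f2 : 28 ^ k ≤ ∑ c : Fin 3, (∑ g, if P c g ∧ g 1 = 0 then (1 : ℕ) else 0) ^ k := by
    rw [← c_w]
    exact Finset.single_le_sum (f := fun c : Fin 3 =>
      (∑ g, if P c g ∧ g 1 = 0 then (1 : ℕ) else 0) ^ k) (fun _ _ => Nat.zero_le _)
      (Finset.mem_univ 0)
  have f3 : ∑ c : Fin 3, (∑ g, if P c g ∧ g 0 = 0 ∧ g 1 = 0 then (1 : ℕ) else 0) ^ k ≤
      3 * 18 ^ k := by
    calc _ ≤ ∑ _c : Fin 3, 18 ^ k :=
          Finset.sum_le_sum fun c _ => Nat.pow_le_pow_left (c_uw c) k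
      _ = _ := by simp
  rw [f0] at e0
  rw [← e1] at f1
  rw [← e2] at f2
  rw [← e3] at f3
  have g1 : ∀ (t : Fin 7), (∑ f : Option (Fin k × Fin 7) → Fin 3,
      if ∀ i, P (f none) fun t => f (some (i, t)) then
        (if ∀ i, f (some (i, t)) = 0 then (1 : ℝ) else 0) else 0) =
      ((∑ f : Option (Fin k × Fin 7) → Fin 3,
        if ∀ i, (P (f none) fun t => f (some (i, t))) ∧ f (some (i, t)) = 0 then (1 : ℕ)
          else 0 : ℕ) : ℝ) := by
    intro t
    push_cast
    refine Finset.sum_congr rfl fun f _ => ?_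
    simp only [forall_and]
    by_cases h1 : ∀ i, P (f none) fun t => f (some (i, t)) <;>
      by_cases h2 : ∀ i, f (some (i, t)) = 0 <;> simp [h1, h2]
  have g3 : (∑ f : Option (Fin k × Fin 7) → Fin 3,
      if ∀ i, P (f none) fun t => f (some (i, t)) then
        (if ∀ i, f (some (i, 0)) = 0 then (1 : ℝ) else 0) *
        (if ∀ i, f (some (i, 1)) = 0 then (1 : ℝ) else 0) else 0) =
      ((∑ f : Option (Fin k × Fin 7) → Fin 3,
        if ∀ i, (P (f none) fun t => f (some (i, t))) ∧ f (some (i, 0)) = 0 ∧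
          f (some (i, 1)) = 0 then (1 : ℕ) else 0 : ℕ) : ℝ) := by
    push_cast
    refine Finset.sum_congr rfl fun f _ => ?_
    simp only [forall_and]
    by_cases h1 : ∀ i, P (f none) fun t => f (some (i, t)) <;>
      by_cases h2 : ∀ i, f (some (i, 0)) = 0 <;>
      by_cases h3 : ∀ i, f (some (i, 1)) = 0 <;> simp [h1, h2, h3]
  have key2 : ((∑ f : Option (Fin k × Fin 7) → Fin 3,
        if ∀ i, (P (f none) fun t => f (some (i, t))) ∧ f (some (i, 0)) = 0 then (1 : ℕ)
          else 0 : ℕ) : ℝ) * ((∑ f : Option (Fin k × Fin 7) → Fin 3,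
        if ∀ i, (P (f none) fun t => f (some (i, t))) ∧ f (some (i, 1)) = 0 then (1 : ℕ)
          else 0 : ℕ) : ℝ) ≤ ((3 * 68 ^ k : ℕ) : ℝ) * ((∑ f : Option (Fin k × Fin 7) → Fin 3,
        if ∀ i, (P (f none) fun t => f (some (i, t))) ∧ f (some (i, 0)) = 0 ∧
          f (some (i, 1)) = 0 then (1 : ℕ) else 0 : ℕ) : ℝ) := by
    rw [← g1, ← g1, ← g3, ← e0]
    convert key.le using 2
  have key3 := le_trans (Nat.mul_le_mul f1 f2) (by exact_mod_cast key2)
  have key4 := key3.trans (Nat.mul_le_mul_left _ f3)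
  exact absurd hk (not_lt.2 key4)

end Pool.Agent.H222Z.PosAssoc
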