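import Mathlib

set_option autoImplicit false

namespace Pool.Agent.H222Z.TILF

open MeasureTheory Set Metric Finset

/-- The mean of a continuous real function on the circle. -/
noncomputable def mean (f : C(UnitAddCircle, ℝ)) : ℝ := ∫ y, f y

lemma integrable_cont (f : C(UnitAddCircle, ℝ)) : Integrable (fun y => f y) :=
  f.continuous.integrable_of_hasCompactSupport (HasCompactSupport.of_compactSpace _)

lemma vol_univ : (volume : Measure UnitAddCircle) Set.univ = 1 := by
  simp

lemma mean_add (f g : C(UnitAddCircle, ℝ)) : mean (f + g) = mean f + mean g := by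
  unfold mean
  simp only [ContinuousMap.add_apply]
  exact integral_add (integrable_cont f) (integrable_cont g)

lemma mean_smul (r : ℝ) (f : C(UnitAddCircle, ℝ)) : mean (r • f) = r * mean f := by
  unfold mean
  simp only [ContinuousMap.smul_apply, smul_eq_mul]
  exact integral_const_mul r _

lemma mean_sub (f g : C(UnitAddCircle, ℝ)) : mean (f - g) = mean f - mean g := by
  unfold mean
  simp only [ContinuousMap.sub_apply]
  exact integral_sub (integrable_cont f) (integrable_cont g)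

lemma abs_mean_le (f : C(UnitAddCircle, ℝ)) : |mean f| ≤ ‖f‖ := by
  unfold mean
  have h := norm_integral_le_of_norm_le_const (μ := (volume : Measure UnitAddCircle))
    (f := fun y => f y) (C := ‖f‖) (Filter.Eventually.of_forall fun y => f.norm_coe_le_norm y)
  have h1 : (volume : Measure UnitAddCircle).real Set.univ = 1 := by
    simp [Measure.real]
  rw [h1, mul_one] at h
  exact h

lemma continuous_mean : Continuous mean := by
  have : LipschitzWith 1 mean := by
    refine LipschitzWith.of_dist_le_mul fun f g => ?_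
    rw [Real.dist_eq, ← mean_sub, dist_eq_norm]
    simpa using abs_mean_le (f - g)
  exact this.continuous

/-- A function with values in `[0,1]`, of mean at most `1/4`, equal to `1` on a translate of
every family of points indexed by a given finite type. -/
lemma exists_bump (ι : Type) [Fintype ι] :
    ∃ ψ : C(UnitAddCircle, ℝ), ‖ψ‖ ≤ 1 ∧ mean ψ ≤ 1 / 4 ∧
      ∀ t : ι → UnitAddCircle, ∃ x, ∀ i, ψ (x + t i) = 1 := by
  obtain ⟨D, hDc, hDd⟩ := TopologicalSpace.exists_countable_dense UnitAddCircle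
  have hD0 : (volume : Measure UnitAddCircle) D = 0 := by
    rw [← Set.biUnion_of_singleton D, measure_biUnion_null_iff hDc]
    intro y _
    have := AddCircle.volume_closedBall (T := 1) (x := y) 0
    simpa using this
  obtain ⟨U, hDU, hUo, hUm⟩ := Set.exists_isOpen_lt_of_lt (μ := (volume : Measure UnitAddCircle)) D
    (ENNReal.ofReal (1 / 4)) (by rw [hD0]; simp)
  have hUd : Dense U := hDd.mono hDU
  have hne : (Uᶜ).Nonempty := by
    by_contra h
    rw [Set.not_nonempty_iff_eq_empty, Set.compl_empty_iff] at h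
    rw [h, vol_univ] at hUm
    have : ENNReal.ofReal (1 / 4) ≤ 1 := by
      rw [← ENNReal.ofReal_one]; exact ENNReal.ofReal_le_ofReal (by norm_num)
    exact absurd hUm (not_lt.mpr this)
  have hd : Continuous fun y : UnitAddCircle => infDist y Uᶜ := continuous_infDist_pt _
  let V : ℕ → Set (ι → UnitAddCircle) := fun k =>
    ⋃ x : UnitAddCircle, ⋂ i, {t | 1 < (k : ℝ) * infDist (x + t i) Uᶜ}
  have hVo : ∀ k, IsOpen (V k) := by
    intro k
    refine isOpen_iUnion fun x => isOpen_iInter_of_finite fun i => ?_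
    refine isOpen_lt continuous_const ?_
    exact continuous_const.mul (hd.comp (continuous_const.add (continuous_apply i)))
  have hVm : Monotone V := by
    intro k l hkl t ht
    simp only [V, Set.mem_iUnion, Set.mem_iInter, Set.mem_ofPred_eq] at ht ⊢
    obtain ⟨x, hx⟩ := ht
    refine ⟨x, fun i => lt_of_lt_of_le (hx i) ?_⟩
    exact mul_le_mul_of_nonneg_right (by exact_mod_cast hkl) infDist_nonneg
  have hcov : (Set.univ : Set (ι → UnitAddCircle)) ⊆ ⋃ k, V k := by
    intro t _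
    have hden : Dense (⋂ i, (fun x => x + t i) ⁻¹' U) := by
      refine dense_iInter_of_isOpen (fun i => hUo.preimage (continuous_add_const _)) fun i => ?_
      exact hUd.preimage (Homeomorph.addRight (t i)).isOpenMap
    obtain ⟨x, hx⟩ := hden.nonempty
    simp only [Set.mem_iInter, Set.mem_preimage] at hx
    have hpos : ∀ i, 0 < infDist (x + t i) Uᶜ := fun i =>
      (hUo.isClosed_compl.notMem_iff_infDist_pos hne).1 (by simpa using hx i)
    have hk : ∀ i, ∃ k : ℕ, 1 < (k : ℝ) * infDist (x + t i) Uᶜ := by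
      intro i
      obtain ⟨k, hk⟩ := exists_nat_gt (1 / infDist (x + t i) Uᶜ)
      exact ⟨k, by rwa [div_lt_iff₀ (hpos i)] at hk⟩
    choose k hk using hk
    simp only [V, Set.mem_iUnion, Set.mem_iInter, Set.mem_ofPred_eq]
    refine ⟨∑ i, k i, x, fun i => lt_of_lt_of_le (hk i) ?_⟩
    refine mul_le_mul_of_nonneg_right ?_ infDist_nonneg
    exact_mod_cast Finset.single_le_sum (f := k) (fun j _ => Nat.zero_le _) (Finset.mem_univ i)
  obtain ⟨k, hk⟩ := isCompact_univ.elim_directed_cover V hVo hcov hVm.directed_le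
  let ψ : C(UnitAddCircle, ℝ) := ⟨fun y => min 1 ((k : ℝ) * infDist y Uᶜ),
    continuous_const.min (continuous_const.mul hd)⟩
  have hψ0 : ∀ y, 0 ≤ ψ y := fun y =>
    le_min zero_le_one (mul_nonneg (Nat.cast_nonneg _) infDist_nonneg)
  have hψ1 : ∀ y, ψ y ≤ 1 := fun y => min_le_left _ _
  refine ⟨ψ, ?_, ?_, ?_⟩
  · refine (ContinuousMap.norm_le _ zero_le_one).2 fun y => ?_
    rw [Real.norm_eq_abs, abs_of_nonneg (hψ0 y)]
    exact hψ1 y
  · have h1 : mean ψ ≤ ∫ y, U.indicator (fun _ => (1 : ℝ)) y := by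
      refine integral_mono (integrable_cont ψ) ((integrable_const _).indicator hUo.measurableSet)
        fun y => ?_
      by_cases hy : y ∈ U
      · simpa [hy] using hψ1 y
      · have : infDist y Uᶜ = 0 := infDist_zero_of_mem hy
        simp [hy, ψ, this]
    rw [integral_indicator_const _ hUo.measurableSet] at h1
    simp only [smul_eq_mul, mul_one] at h1
    refine h1.trans ?_
    exact ENNReal.toReal_le_of_le_ofReal (by norm_num) hUm.le
  · intro t
    have := hk (Set.mem_univ t)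
    simp only [V, Set.mem_iUnion, Set.mem_iInter, Set.mem_ofPred_eq] at this
    obtain ⟨x, hx⟩ := this
    exact ⟨x, fun i => min_eq_left (hx i).le⟩

/-- Functions whose averages over all translates of some family indexed by `ι` are close to
the mean. -/
def Good (ι : Type) [Fintype ι] (ε : ℝ) : Set C(UnitAddCircle, ℝ) :=
  {f | ∃ t : ι → UnitAddCircle, ∀ x,
    |∑ i, (f (x + t i) - mean f)| ≤ ε * Fintype.card ι}

lemma isClosed_good (ι : Type) [Fintype ι] (ε : ℝ) : IsClosed (Good ι ε) := by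
  have h : IsClosed {p : C(UnitAddCircle, ℝ) × (ι → UnitAddCircle) |
      ∀ x, |∑ i, (p.1 (x + p.2 i) - mean p.1)| ≤ ε * Fintype.card ι} := by
    rw [Set.ofPred_forall]
    refine isClosed_iInter fun x => isClosed_le ?_ continuous_const
    refine Continuous.abs (continuous_finsetSum _ fun i _ => ?_)
    refine Continuous.sub ?_ (continuous_mean.comp continuous_fst)
    exact Continuous.eval continuous_fst
      (continuous_const.add ((continuous_apply i).comp continuous_snd))
  have h2 := isClosedMap_fst_of_compactSpace _ h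
  convert h2 using 1
  ext f
  simp [Good]

lemma not_both (ι : Type) [Fintype ι] [Nonempty ι] (ε r : ℝ) (hr : 0 < r) (hε : 4 * ε < r) :
    ∃ ψ : C(UnitAddCircle, ℝ), ‖ψ‖ ≤ 1 ∧
      ∀ f, f ∈ Good ι ε → f + r • ψ ∉ Good ι ε := by
  obtain ⟨ψ, hψ1, hψ2, hψ3⟩ := exists_bump (ι × ι)
  refine ⟨ψ, hψ1, ?_⟩
  rintro f ⟨s, hs⟩ ⟨t, ht⟩
  obtain ⟨x, hx⟩ := hψ3 (fun p => s p.1 + t p.2)
  have hc : (0 : ℝ) < Fintype.card ι := by exact_mod_cast Fintype.card_pos
  set M : ℝ := (Fintype.card ι : ℝ) with hM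
  have h1 : -(ε * M * M) ≤ ∑ i, ∑ j, (f (x + (s i + t j)) - mean f) := by
    rw [Finset.sum_comm]
    have : ∀ j, -(ε * M) ≤ ∑ i, (f (x + (s i + t j)) - mean f) := by
      intro j
      have := (abs_le.1 (hs (x + t j))).1
      refine this.trans (le_of_eq ?_)
      refine Finset.sum_congr rfl fun i _ => ?_
      congr 2
      abel
    calc -(ε * M * M) = ∑ _j : ι, -(ε * M) := by
          simp [hM]; ring
      _ ≤ _ := Finset.sum_le_sum fun j _ => this j
  have h2 : ∑ i, ∑ j, ((f + r • ψ) (x + (s i + t j)) - mean (f + r • ψ)) ≤ ε * M * M := by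
    have : ∀ i, ∑ j, ((f + r • ψ) (x + (s i + t j)) - mean (f + r • ψ)) ≤ ε * M := by
      intro i
      have := (abs_le.1 (ht (x + s i))).2
      refine le_trans (le_of_eq ?_) this
      refine Finset.sum_congr rfl fun j _ => ?_
      congr 2
      abel
    calc _ ≤ ∑ _i : ι, ε * M := Finset.sum_le_sum fun i _ => this i
      _ = ε * M * M := by simp [hM]; ring
  have h3 : ∑ i, ∑ j, ((f + r • ψ) (x + (s i + t j)) - mean (f + r • ψ)) =
      ∑ i, ∑ j, (f (x + (s i + t j)) - mean f) + M * M * (r * (1 - mean ψ)) := by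
    have : M * M * (r * (1 - mean ψ)) = ∑ _i : ι, ∑ _j : ι, r * (1 - mean ψ) := by
      simp [hM]; ring
    rw [this, ← Finset.sum_add_distrib]
    refine Finset.sum_congr rfl fun i _ => ?_
    rw [← Finset.sum_add_distrib]
    refine Finset.sum_congr rfl fun j _ => ?_
    have := hx (i, j)
    simp only at this
    rw [mean_add, mean_smul, ContinuousMap.add_apply, ContinuousMap.smul_apply, this]
    simp only [smul_eq_mul]
    ring
  have hMM : 0 < M * M := mul_pos hc hc
  have h4 : M * M * (r * (1 - mean ψ)) ≤ M * M * (2 * ε) := by linarith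
  have h5 : r * (1 - mean ψ) ≤ 2 * ε := le_of_mul_le_mul_left h4 hMM
  nlinarith

/-- Some continuous function is in none of the sets `⋂ n, Good (Fin N → Fin n) (K / n)`. -/
lemma exists_bad : ∃ f : C(UnitAddCircle, ℝ), ∀ N K : ℕ, ∃ n : ℕ,
    f ∉ Good (Fin N → Fin (n + 1)) (K / (n + 1 : ℝ)) := by
  by_contra h
  push Not at h
  let E : ℕ × ℕ → Set C(UnitAddCircle, ℝ) := fun p =>
    ⋂ n : ℕ, Good (Fin p.1 → Fin (n + 1)) (p.2 / (n + 1 : ℝ))
  have hEc : ∀ p, IsClosed (E p) := fun p => isClosed_iInter fun n => isClosed_good _ _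
  have hEu : ⋃ p, E p = Set.univ := by
    refine Set.eq_univ_of_forall fun f => ?_
    obtain ⟨N, K, hNK⟩ := h f
    exact Set.mem_iUnion.2 ⟨(N, K), Set.mem_iInter.2 hNK⟩
  obtain ⟨⟨N, K⟩, f, hf⟩ := nonempty_interior_of_iUnion_of_closed hEc hEu
  rw [mem_interior_iff_mem_nhds, Metric.mem_nhds_iff] at hf
  obtain ⟨r, hr, hb⟩ := hf
  obtain ⟨n, hn⟩ := exists_nat_gt (8 * K / r)
  have hε : 4 * ((K : ℝ) / (n + 1 : ℝ)) < r / 2 := by
    rw [div_lt_iff₀ hr] at hn
    have hn1 : (0 : ℝ) < n + 1 := by positivity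
    rw [← mul_div_assoc, div_lt_iff₀ hn1]
    nlinarith
  obtain ⟨ψ, hψ, hψ2⟩ := not_both (Fin N → Fin (n + 1)) _ (r / 2) (half_pos hr) hε
  have h1 : f ∈ E (N, K) := hb (Metric.mem_ball_self hr)
  have h2 : f + (r / 2) • ψ ∈ E (N, K) := by
    apply hb
    rw [mem_ball_iff_norm, add_sub_cancel_left, norm_smul, Real.norm_eq_abs,
      abs_of_pos (half_pos hr)]
    nlinarith
  exact hψ2 f (Set.mem_iInter.1 h1 n) (Set.mem_iInter.1 h2 n)

lemma telescope {N n : ℕ} (a : Fin N → ℝ) (j : Fin N) (g : ℝ → ℂ) (C : ℝ)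
    (hg : ∀ y, ‖g y‖ ≤ C) (x : ℝ) :
    ‖∑ m : Fin N → Fin (n + 1), (g (x + ∑ i, ((m i : ℕ) : ℝ) * a i) -
      g (x + ∑ i, ((m i : ℕ) : ℝ) * a i - a j))‖ ≤
      2 * C / (n + 1 : ℝ) * Fintype.card (Fin N → Fin (n + 1)) := by
  classical
  let e := Equiv.piSplitAt j (fun _ : Fin N => Fin (n + 1))
  have hcard : (Fintype.card (Fin N → Fin (n + 1)) : ℝ) =
      (n + 1 : ℝ) * Fintype.card ({i // i ≠ j} → Fin (n + 1)) := by
    rw [Fintype.card_congr e, Fintype.card_prod]
    simp
  rw [← e.symm.sum_comp, Fintype.sum_prod_type, Finset.sum_comm, hcard]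
  have hsum : ∀ (c : Fin (n + 1)) (w : {i // i ≠ j} → Fin (n + 1)),
      ∑ i, (((e.symm (c, w)) i : ℕ) : ℝ) * a i =
        ((c : ℕ) : ℝ) * a j + ∑ i : {i // i ≠ j}, ((w i : ℕ) : ℝ) * a i := by
    intro c w
    rw [Fintype.sum_eq_add_sum_subtype_ne _ j]
    congr 1
    · simp [e, Equiv.piSplitAt]
    · refine Finset.sum_congr rfl fun i _ => ?_
      simp [e, Equiv.piSplitAt, i.2]
  have hin : ∀ w : {i // i ≠ j} → Fin (n + 1),
      ‖∑ c : Fin (n + 1), (g (x + ∑ i, (((e.symm (c, w)) i : ℕ) : ℝ) * a i) -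
        g (x + ∑ i, (((e.symm (c, w)) i : ℕ) : ℝ) * a i - a j))‖ ≤ 2 * C := by
    intro w
    set y := x + ∑ i : {i // i ≠ j}, ((w i : ℕ) : ℝ) * a i - a j with hy
    have : ∑ c : Fin (n + 1), (g (x + ∑ i, (((e.symm (c, w)) i : ℕ) : ℝ) * a i) -
        g (x + ∑ i, (((e.symm (c, w)) i : ℕ) : ℝ) * a i - a j)) =
        ∑ c ∈ Finset.range (n + 1), (g (y + ((c + 1 : ℕ) : ℝ) * a j) - g (y + (c : ℝ) * a j)) := by
      rw [Finset.sum_range]
      refine Finset.sum_congr rfl fun c _ => ?_
      rw [hsum c w, hy]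
      push_cast
      congr 2 <;> ring
    rw [this, Finset.sum_range_sub (fun c : ℕ => g (y + (c : ℝ) * a j))]
    calc _ ≤ ‖g (y + ((n + 1 : ℕ) : ℝ) * a j)‖ + ‖g (y + ((0 : ℕ) : ℝ) * a j)‖ := norm_sub_le _ _
      _ ≤ C + C := add_le_add (hg _) (hg _)
      _ = 2 * C := by ring
  calc _ ≤ ∑ w : {i // i ≠ j} → Fin (n + 1), 2 * C :=
        (norm_sum_le _ _).trans (Finset.sum_le_sum fun w _ => hin w)
    _ = _ := by
        have hn1 : (n + 1 : ℝ) ≠ 0 := by positivity
        rw [Finset.sum_const, Finset.card_univ, nsmul_eq_mul]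
        field_simp

theorem main : ¬ (∀ f : ℝ → ℂ, Continuous f → Function.Periodic f 1 →
      (∫ t in (0:ℝ)..1, f t) = 0 →
      ∃ N : ℕ, 1 ≤ N ∧ ∃ a : Fin N → ℝ, ∃ g : Fin N → ℝ → ℂ,
        (∀ j, Continuous (g j) ∧ Function.Periodic (g j) 1) ∧
        ∀ t : ℝ, f t = ∑ j : Fin N, (g j t - g j (t - a j))) := by
  intro h
  obtain ⟨f, hf⟩ := exists_bad
  let F : ℝ → ℂ := fun t => ((f (t : UnitAddCircle) - mean f : ℝ) : ℂ)
  have hc0 : Continuous fun t : ℝ => f (t : UnitAddCircle) :=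
    f.continuous.comp (AddCircle.continuous_mk' 1)
  have hFc : Continuous F := Complex.continuous_ofReal.comp (hc0.sub continuous_const)
  have hFp : Function.Periodic F 1 := by
    intro t
    simp only [F]
    rw [AddCircle.coe_add_period]
  have hFi : (∫ t in (0:ℝ)..1, F t) = 0 := by
    simp only [F]
    rw [intervalIntegral.integral_ofReal, intervalIntegral.integral_sub
      (hc0.intervalIntegrable _ _) (continuous_const.intervalIntegrable _ _)]
    have := UnitAddCircle.intervalIntegral_preimage 0 (fun y => f y)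
    rw [zero_add] at this
    rw [this]
    simp [mean]
  obtain ⟨N, -, a, g, hg, hsum⟩ := h F hFc hFp hFi
  have hb : ∀ j, ∃ C : ℕ, ∀ y, ‖g j y‖ ≤ C := by
    intro j
    have := (hg j).2.isBounded_of_continuous one_ne_zero (hg j).1
    obtain ⟨C, hC⟩ := isBounded_iff_forall_norm_le.1 this
    obtain ⟨k, hk⟩ := exists_nat_ge C
    exact ⟨k, fun y => (hC _ ⟨y, rfl⟩).trans hk⟩
  choose C hC using hb
  obtain ⟨n, hn⟩ := hf N (∑ j, 2 * C j)
  apply hn
  refine ⟨fun m => ((∑ i, ((m i : ℕ) : ℝ) * a i : ℝ) : UnitAddCircle), fun x => ?_⟩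
  obtain ⟨x, rfl⟩ := QuotientAddGroup.mk_surjective x
  have h1 : ((∑ m : Fin N → Fin (n + 1),
      (f ((x : UnitAddCircle) + ((∑ i, ((m i : ℕ) : ℝ) * a i : ℝ) : UnitAddCircle)) - mean f) : ℝ) : ℂ)
      = ∑ j, ∑ m : Fin N → Fin (n + 1), (g j (x + ∑ i, ((m i : ℕ) : ℝ) * a i) -
        g j (x + ∑ i, ((m i : ℕ) : ℝ) * a i - a j)) := by
    rw [Finset.sum_comm, Complex.ofReal_sum]
    refine Finset.sum_congr rfl fun m _ => ?_
    rw [← hsum]
    simp only [F]
    rw [AddCircle.coe_add]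
  rw [← Real.norm_eq_abs, ← Complex.norm_real, h1]
  refine (norm_sum_le _ _).trans ?_
  refine (Finset.sum_le_sum fun j _ => telescope a j (g j) (C j) (hC j) x).trans (le_of_eq ?_)
  rw [← Finset.sum_mul, ← Finset.sum_div]
  push_cast
  rfl

end Pool.Agent.H222Z.TILF
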